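import Pool.Agent.Helper569.FaultyFinal

/-!
# Faulty linear search: explicit gap between all trajectories and the cyclic monotone ones
-/

set_option autoImplicit false

open MeasureTheory
open scoped ENNReal

namespace Pool.Agent.Y237.FL

open Pool.Agent.Helper569.Faulty

variable {p : ℝ}

lemma finite_ratio_explicit (hp0 : 0 < p) (hp1 : p < 1) : ∃ y : ℕ → ℝ, IsTrajectory y ∧
    IsCyclicMonotone y ∧ competitiveRatio p y ≤ ENNReal.ofReal (8 + p) := by
  have hq0 : 0 < 1 - p := by linarith
  set r : ℝ := 2 / (2 - p) with hr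
  have hr1 : 1 < r := by
    rw [hr, lt_div_iff₀ (by linarith)]
    linarith
  have hqr : (1 - p) * r < 1 := by
    rw [hr, ← mul_div_assoc, div_lt_one (by linarith)]
    linarith
  have hqr0 : 0 < (1 - p) * r := by positivity
  have hx0 := gx_pos hr1
  have hx2 := gx_lt hr1
  have hy : ∀ n, gy r (n + 1) = (-1) ^ n * gx r n := fun n => rfl
  have hgeo := (hasSum_geometric_of_lt_one hqr0.le hqr).mul_left (p * (2 / (r - 1) * r ^ 2))
  have hsum := hgeo.add (hasSum_pq hp0 hp1)
  set c := p * (2 / (r - 1) * r ^ 2) * (1 - (1 - p) * r)⁻¹ + 1 with hc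
  have hr0 : 0 < r - 1 := by linarith
  have hc0 : 0 ≤ c := by
    have : 0 < 1 - (1 - p) * r := by linarith
    positivity
  refine ⟨gy r, isTrajectory_cyc hx0 hx2 rfl hy, ⟨gx r, hx0, hx2, Or.inl hy⟩, ?_⟩
  have hcv : 8 + p = p * c := by
    have h2p : (2 - p) ≠ 0 := by linarith
    have e1 : r - 1 = p / (2 - p) := by rw [hr]; field_simp; ring
    have e2 : 1 - (1 - p) * r = p / (2 - p) := by rw [hr]; field_simp; ring
    rw [hc, e1, e2, hr]
    field_simp
    ring
  rw [hcv, ratio_le_iff hp0 hc0]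
  -- bound for one side
  have main : ∀ j0 : ℕ, (j0 = 0 ∨ j0 = 1) → ∀ g : ℝ, 1 ≤ g →
      expectedTime p (gy r) ((-1) ^ j0 * g) ≤ ENNReal.ofReal (c * g) := by
    intro j0 hj0 g hg
    have hstart : gx r j0 ≤ g := by
      have : gx r j0 ≤ 1 := by
        unfold gx
        rw [div_le_one (by positivity)]
        exact pow_le_pow_right₀ hr1.le (by omega)
      linarith
    have hex : ∃ m, g < gx r (j0 + 2 * m) := by
      obtain ⟨m, hm⟩ := pow_unbounded_of_one_lt (g * r ^ 2) hr1
      refine ⟨m, ?_⟩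
      unfold gx
      rw [lt_div_iff₀ (by positivity)]
      exact hm.trans_le (pow_le_pow_right₀ hr1.le (by omega))
    classical
    have hspec := Nat.find_spec hex
    have hne : Nat.find hex ≠ 0 := by
      intro h
      rw [h, mul_zero, add_zero] at hspec
      linarith
    obtain ⟨m, hm⟩ := Nat.exists_eq_succ_of_ne_zero hne
    have hmin : gx r (j0 + 2 * m) ≤ g := by
      by_contra h
      push Not at h
      have := Nat.find_min' hex h
      omega
    rw [hm, show j0 + 2 * m.succ = j0 + 2 * m + 2 by rw [Nat.succ_eq_add_one]; ring] at hspec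
    set i := j0 + 2 * m with hi
    have hg0 : 0 < g := by linarith
    have h1 := expectedTime_le hp0 hp1.le (tau_strictMono hx0 hx2 hg0 hspec)
      (isAt_cyc_passes hx0 hx2 rfl hy hg0 hspec)
    rw [pow_parity (show i % 2 = j0 % 2 by omega)] at h1
    refine h1.trans ?_
    have hb : ∀ k, tau (gx r) i g k ≤ (2 / (r - 1) * r ^ 2 * r ^ k + 1) * g := by
      intro k
      unfold tau
      have h2 := S_gx_le hr1 (i + 2 + k)
      have h3 : gx r (i + 2 + k) = r ^ 2 * r ^ k * gx r i := by
        unfold gx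
        rw [pow_add, pow_add]
        ring
      have h4 : (-1 : ℝ) ^ k * g ≤ g := by
        rcases neg_one_pow_eq_or ℝ k with h | h <;> rw [h] <;> linarith
      have h5 : 2 / (r - 1) * gx r (i + 2 + k) ≤ 2 / (r - 1) * r ^ 2 * r ^ k * g := by
        rw [h3]
        calc 2 / (r - 1) * (r ^ 2 * r ^ k * gx r i) = (2 / (r - 1) * r ^ 2 * r ^ k) * gx r i := by
              ring
          _ ≤ (2 / (r - 1) * r ^ 2 * r ^ k) * g := by
              apply mul_le_mul_of_nonneg_left hmin
              positivity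
      linarith
    have hT : HasSum (fun k : ℕ => p * (1 - p) ^ k * ((2 / (r - 1) * r ^ 2 * r ^ k + 1) * g))
        (c * g) := by
      have h6 := hsum.mul_right g
      have e1 : (fun k : ℕ => p * (1 - p) ^ k * ((2 / (r - 1) * r ^ 2 * r ^ k + 1) * g)) =
          fun k : ℕ => (p * (2 / (r - 1) * r ^ 2) * ((1 - p) * r) ^ k + p * (1 - p) ^ k) * g := by
        funext k
        rw [mul_pow]
        ring
      rw [e1]
      exact h6
    exact ofReal_sum_le hp0 hp1 hb (fun k => by positivity) hT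
  intro h hh
  rcases le_total 0 h with h1 | h1
  · have h2 := main 0 (Or.inl rfl) |h| hh
    rw [pow_zero, one_mul] at h2
    rwa [abs_of_nonneg h1] at h2 ⊢
  · have h2 := main 1 (Or.inr rfl) |h| hh
    rw [pow_one, abs_of_nonpos h1] at h2
    rw [abs_of_nonpos h1]
    convert h2 using 2
    ring

/-- every cyclic monotone trajectory of finite competitive ratio can be improved by an explicit
amount -/
theorem improve_explicit (hp0 : 0 < p) (hp1 : p < 1) {y : ℕ → ℝ} (hyt : IsTrajectory y)
    (hym : IsCyclicMonotone y) (hfin : competitiveRatio p y ≠ ⊤) :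
    ∃ y' : ℕ → ℝ, IsTrajectory y' ∧ competitiveRatio p y' + ENNReal.ofReal
      (p ^ 4 * (1 - p) ^ 3 / (2 * ((competitiveRatio p y).toReal + p))) ≤
        competitiveRatio p y := by
  set R := (competitiveRatio p y).toReal with hR
  have hR0 : 0 ≤ R := ENNReal.toReal_nonneg
  have hRj : competitiveRatio p y = ENNReal.ofReal R := (ENNReal.ofReal_toReal hfin).symm
  set c := R / p with hc
  have hpc : p * c = R := by rw [hc, mul_div_cancel₀ _ hp0.ne']
  have hc0 : 0 ≤ c := by positivity
  obtain ⟨y', h1, h2, h3⟩ := improve hp0 hp1 (C := c + 1) (c := c) (by linarith) hc0 (by linarith)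
    hyt hym (by rw [hpc, hRj])
  refine ⟨y', h1, ?_⟩
  have hq0 : 0 < 1 - p := by linarith
  have hδ : p * (2 * p * (1 - p) * (p * (1 - p) ^ 2 / (4 * (c + 1)))) =
      p ^ 4 * (1 - p) ^ 3 / (2 * (R + p)) := by
    have h4 : c + 1 ≠ 0 := by positivity
    have h5 : R + p = p * (c + 1) := by rw [mul_add, hpc, mul_one]
    rw [h5]
    field_simp
    ring
  have h6 : p * (c - 2 * p * (1 - p) * (p * (1 - p) ^ 2 / (4 * (c + 1)))) =
      R - p ^ 4 * (1 - p) ^ 3 / (2 * (R + p)) := by
    rw [mul_sub, hpc, hδ]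
  rw [h6] at h2
  have h7 : 0 ≤ R - p ^ 4 * (1 - p) ^ 3 / (2 * (R + p)) := by
    rw [← h6]
    exact mul_nonneg hp0.le h3
  have h8 : 0 ≤ p ^ 4 * (1 - p) ^ 3 / (2 * (R + p)) := by positivity
  calc competitiveRatio p y' + ENNReal.ofReal (p ^ 4 * (1 - p) ^ 3 / (2 * (R + p)))
      ≤ ENNReal.ofReal (R - p ^ 4 * (1 - p) ^ 3 / (2 * (R + p))) +
          ENNReal.ofReal (p ^ 4 * (1 - p) ^ 3 / (2 * (R + p))) := add_le_add_left h2 _
    _ = competitiveRatio p y := by
      rw [← ENNReal.ofReal_add h7 h8, sub_add_cancel, hRj]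

/-- the explicit gap -/
theorem gap (hp0 : 0 < p) (hp1 : p < 1) :
    (⨅ (y : ℕ → ℝ) (_ : IsTrajectory y), competitiveRatio p y) +
      ENNReal.ofReal (p ^ 4 * (1 - p) ^ 3 / 20) ≤
      ⨅ (y : ℕ → ℝ) (_ : IsTrajectory y) (_ : IsCyclicMonotone y), competitiveRatio p y := by
  have hq0 : 0 < 1 - p := by linarith
  have key : ∀ y : ℕ → ℝ, IsTrajectory y → IsCyclicMonotone y →
      competitiveRatio p y ≤ ENNReal.ofReal (8 + p) →
      (⨅ (y : ℕ → ℝ) (_ : IsTrajectory y), competitiveRatio p y) +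
        ENNReal.ofReal (p ^ 4 * (1 - p) ^ 3 / 20) ≤ competitiveRatio p y := by
    intro y hyt hym hr
    have hfin : competitiveRatio p y ≠ ⊤ := ne_top_of_le_ne_top ENNReal.ofReal_ne_top hr
    obtain ⟨y', h1, h2⟩ := improve_explicit hp0 hp1 hyt hym hfin
    refine le_trans (add_le_add ?_ ?_) h2
    · exact iInf_le_of_le y' (iInf_le_of_le h1 le_rfl)
    · apply ENNReal.ofReal_le_ofReal
      have h3 : (competitiveRatio p y).toReal ≤ 8 + p := by
        have := ENNReal.toReal_mono ENNReal.ofReal_ne_top hr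
        rwa [ENNReal.toReal_ofReal (by linarith)] at this
      have h4 : 0 ≤ (competitiveRatio p y).toReal := ENNReal.toReal_nonneg
      apply div_le_div_of_nonneg_left (by positivity) (by linarith)
      linarith
  refine le_iInf fun y => le_iInf fun hyt => le_iInf fun hym => ?_
  rcases le_total (competitiveRatio p y) (ENNReal.ofReal (8 + p)) with h | h
  · exact key y hyt hym h
  · obtain ⟨y0, h1, h2, h3⟩ := finite_ratio_explicit hp0 hp1
    exact ((key y0 h1 h2 h3).trans h3).trans h

theorem upper (hp0 : 0 < p) (hp1 : p < 1) :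
    (⨅ (y : ℕ → ℝ) (_ : IsTrajectory y) (_ : IsCyclicMonotone y), competitiveRatio p y) ≤
      ENNReal.ofReal (8 + p) := by
  obtain ⟨y0, h1, h2, h3⟩ := finite_ratio_explicit hp0 hp1
  exact iInf_le_of_le y0 (iInf_le_of_le h1 (iInf_le_of_le h2 h3))

end Pool.Agent.Y237.FL
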